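import Pool.Agent.MWE.Defs

/-!
# The identities F and F' for all words (MP_23468a_al, squad MWE): statements with proofs

Available without hypotheses (Helper11_MWD/FIN3.lean, namespace `Pool.Agent.MWD.H11`): `decF`
(DEC), `uniF` (UNI), `facF` (FAC), `kp3` (KP2 with `Iso3` only), `prpF`, `ffcF`, `zzcF`.
-/

set_option autoImplicit false

namespace Pool.Agent.MWE

open Pool.Agent.Helper14_MV Pool.Agent.Helper2_MV Pool.Agent.MVD

/-! ## Block 1: lists -/

/-- SMA. Measure facts.  `Sm c' c`: fewer different letters, or not more different letters and fewer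
repeated letters.
PROOF. Letters of `c` are light (`3 d + 1`, `d < m`, once) or local (`3 j ≥ 6`, at least twice), so
`0, 3 ∉ c`.  (1) The set of letters of `c'` is contained in `({0, 3} ∪ c) \ {a, b}`, which has
`nd c` elements.  A repeated letter of `c'` is repeated in `g`, so it is not `0`, `3` or light, so it
is a local letter of `c`, and it is not `b`; `b` is a repeated letter of `c`: `nr c' < nr c`.
(2) `nd c' < nd c`.  (3) As (1). -/
def SmaStmt : Prop := ∀ (m : ℕ) (c : List ℕ), Can m c →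
  (∀ (g c' : List ℕ) (a b : ℕ), (∀ u ∈ g, u = 0 ∨ u = 3 ∨ u ∈ c) → g.count 0 ≤ 1 →
    g.count 3 ≤ 1 → (∀ d < m, g.count (3 * d + 1) ≤ 1) → c' <:+: g → a ≠ b →
      (a = 0 ∨ a = 3 ∨ a ∈ c) → b ∈ c → 2 ≤ c.count b → a ∉ c' → b ∉ c' → Sm c' c) ∧
  (∀ (c' : List ℕ) (a : ℕ), (∀ u ∈ c', u ∈ c) → a ∈ c → a ∉ c' → Sm c' c) ∧
  (∀ (c' : List ℕ) (b : ℕ), (∀ u ∈ c', u ∈ c) → (∀ d < m, c'.count (3 * d + 1) ≤ 1) → b ∈ c →
    2 ≤ c.count b → c'.count b ≤ 1 → Sm c' c)

/-- LOC. Two adjacent letters `a`, `b` which both occur in a factor `g` further right (left) are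
exchanged by `FC` (`ZC`) of the words between two occurrences in `g`.
PROOF. In `g` choose an occurrence of `a` and an occurrence of `b` with smallest distance:
`g = g1 ++ a :: (c' ++ b :: g2)` or `g = g1 ++ b :: (c' ++ a :: g2)`, `a, b ∉ c'` (induction on `g`).
`FC β c'` with `p`, `q ++ g1`, `g2 ++ r`, letters `(a, b)` or `(b, a)` (in the second case read from
right to left); `Mult c'` is the hypothesis.  The second part in the same way with `ZC`. -/
def LocStmt : Prop := ∀ (β : FIC) (p q g r : List ℕ) (a b : ℕ), a ≠ b → a ∈ g → b ∈ g →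
  ((∀ d ∈ g, 2 ≤ (p ++ a :: b :: (q ++ (g ++ r))).count d) →
    (∀ c', c' <:+: g → a ∉ c' → b ∉ c' → FC β c') →
      RR β (p ++ a :: b :: (q ++ (g ++ r))) (p ++ b :: a :: (q ++ (g ++ r)))) ∧
  ((∀ d ∈ g, 2 ≤ (p ++ (g ++ (q ++ a :: b :: r))).count d) →
    (∀ c', c' <:+: g → a ∉ c' → b ∉ c' → ZC β c') →
      RR β (p ++ (g ++ (q ++ a :: b :: r))) (p ++ (g ++ (q ++ b :: a :: r))))

/-- PLM. Two arrangements of the same letters with the same subword of letters with `P` are
connected by exchanges of adjacent different letters which do not both have `P`.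
PROOF. Move all letters without `P` to the right: `E D → E (D.filter P ++ D.filter (¬P))`
(induction: a letter without `P` which is directly left of a letter with `P`; or induction on `D`
with a left context); then permute the part without `P` (induction on the permutation, in a
context); the same for `D'` backwards: the hypothesis is symmetric (exchange `a`, `b`).  Remark: an
exchange keeps the permutation class and the filter. -/
def PlmStmt : Prop := ∀ (P : ℕ → Bool) (E : List ℕ → Prop) (D D' : List ℕ), D.Perm D' →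
  D.filter P = D'.filter P →
  (∀ (A C : List ℕ) (a b : ℕ), (A ++ a :: b :: C).Perm D →
    (A ++ a :: b :: C).filter P = D.filter P → a ≠ b → ¬ (P a = true ∧ P b = true) →
      E (A ++ a :: b :: C) → E (A ++ b :: a :: C)) → E D → E D'

/-- FCE. FAC with a tail.
PROOF. FAC (or its proof) for `Bw R B ++ e`: induction on `R`; `R = []`: the second alternative. -/
def FceStmt : Prop := ∀ (R : List ℕ) (B : ℕ → List ℕ) (e A F C : List ℕ), (∀ r ∈ R, SFr (B r)) →
  SFr F → F ≠ [] → Bw R B ++ e = A ++ (F ++ C) →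
    (∃ (R1 : List ℕ) (r : ℕ) (R2 a c : List ℕ), R = R1 ++ r :: R2 ∧ B r = a ++ (F ++ c) ∧
      A = Bw R1 B ++ a ∧ C = c ++ (3 * r + 2) :: (Bw R2 B ++ e)) ∨
    (∃ a c : List ℕ, e = a ++ (F ++ c) ∧ A = Bw R B ++ a ∧ C = c)

/-- DCM. A word is cut into blocks by its separators.
PROOF. Induction on `R`: `w = u ++ (3 r + 2) :: w'` where `u` has no separators (the first
separator), the filter of `w'` is `R'.map`.  Take `B` for `R'` and change it at `r` (`r ∉ R'`). -/
def DcmStmt : Prop := ∀ (R w : List ℕ), R.Nodup →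
  w.filter (fun a => decide (a % 3 = 2)) = R.map (fun r => 3 * r + 2) →
    ∃ (B : ℕ → List ℕ) (e : List ℕ), w = Bw R B ++ e ∧ (∀ r, SFr (B r)) ∧ SFr e

/-! ## Block 2: the class of `Ex R c X` -/

/-- BAS. Basic facts about the words equivalent to `Ex R c X`.
PROOF. `Ex R c X = Bw R B0` with `B0 0 = X`, `B0 1 = x c y`, `B0 (d + 2) = [3 d + 1]`.  `decF` gives
`B`, `e`.  (2) `kp3` for the letters `0`, `3` (blocks `0` and `1`) and `3 d + 1` (blocks `1` and
`d + 2`).  `ct`: `RR.content`.  `mu`: the letters `0`, `3`, `3 d + 1` have two occurrences by the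
counts.  A local letter `a` of `c` occurs in `w`; if it occurred only once, the projection to `a`
would be `[a]`, equivalent to `replicate k a` with `k ≥ 2`: impossible (`linear` words are isoterms:
Helper10_MVD.LIN, `Pool.Agent.MVD.H10.lin`). -/
def BasStmt : Prop := ∀ (β : FIC) (m : ℕ) (R c X : List ℕ), Iso3 β → Can m c →
  R.Perm (List.range (m + 2)) → XX X →
    (∀ w, RR β (Ex R c X) w → ∃ (B : ℕ → List ℕ) (e : List ℕ), w = Bw R B ++ e ∧
      (∀ r, SFr (B r)) ∧ SFr e) ∧
    (∀ (B : ℕ → List ℕ) (e : List ℕ), (∀ r, SFr (B r)) → SFr e →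
      RR β (Ex R c X) (Bw R B ++ e) → Bs m R c B e)

/-- TRG. Insertion of words at the left and right ends of the blocks.
PROOF. Substitute the separator `3 r + 2` (`r ∈ R`) by `Rt r ++ (3 r + 2) :: Lf r'` where `r'` is the
next element of `R` (`[]` if `r` is the last one) and multiply from the left by `Lf` of the first
element of `R`.  (The blocks and `e` have no separators, so they are not changed.)  Proof of the
formula by induction on `R` (a substitution `g` with `g (3 r + 2) = Rt r ++ (3 r + 2) :: Lf (next)`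
for all `r` in the list and `g c = [c]` for `c` not a separator). -/
def TrgStmt : Prop := ∀ (β : FIC) (R : List ℕ) (B B' Lf Rt : ℕ → List ℕ) (e : List ℕ), R.Nodup →
  (∀ r ∈ R, SFr (B r)) → (∀ r ∈ R, SFr (B' r)) → SFr e → RR β (Bw R B) (Bw R B' ++ e) →
    RR β (Bw R (fun r => Lf r ++ (B r ++ Rt r))) (Bw R (fun r => Lf r ++ (B' r ++ Rt r)) ++ e)

/-- `x`, `y` deleted and inserted again at the ends -/
def tb (B : ℕ → List ℕ) (X : List ℕ) : ℕ → List ℕ := fun r =>
  if r = 0 then dxy (B 0) ++ X else if r = 1 then 0 :: (dxy (B 1) ++ [3]) else B r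
/-- `y` deleted and inserted again at the right ends -/
def ty1 (B : ℕ → List ℕ) : ℕ → List ℕ := fun r =>
  if r = 0 then dy (B 0) ++ [3] else if r = 1 then dy (B 1) ++ [3] else B r
/-- `y` deleted and inserted again at the left end of block `0` and the right end of block `1` -/
def ty2 (B : ℕ → List ℕ) : ℕ → List ℕ := fun r =>
  if r = 0 then 3 :: dy (B 0) else if r = 1 then dy (B 1) ++ [3] else B r
/-- `x` deleted and inserted again at the left ends -/
def tx1 (B : ℕ → List ℕ) : ℕ → List ℕ := fun r =>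
  if r = 0 then 0 :: dx (B 0) else if r = 1 then 0 :: dx (B 1) else B r
/-- `x` deleted and inserted again at the right end of block `0` and the left end of block `1` -/
def tx2 (B : ℕ → List ℕ) : ℕ → List ℕ := fun r =>
  if r = 0 then dx (B 0) ++ [0] else if r = 1 then 0 :: dx (B 1) else B r

/-- TRA. Deletion and insertion of `x`, `y`.
PROOF. Delete `x` and `y` in both words (`RR.filter` or `RR.sub`); the left side becomes `Bw R B1`
with `B1 0 = []`, `B1 1 = c`; the blocks of the right side are filtered (the other blocks and `e`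
do not contain `x`, `y`).  TRG with `Rt 0 = X'`, `Lf 1 = [0]`, `Rt 1 = [3]` gives `Ex R c X'` on the
left side.  The same with `y` only: the left side is `[0]`, `0 :: c`; insert `3` at the right end of
block `1` and at the right (left) end of block `0`: `Ex R c [0, 3]` (`Ex R c [3, 0]`).  The same with
`x` only. -/
def TraStmt : Prop := ∀ (β : FIC) (m : ℕ) (R c X : List ℕ) (B : ℕ → List ℕ) (e : List ℕ),
  Can m c → R.Perm (List.range (m + 2)) → XX X → Bs m R c B e → RR β (Ex R c X) (Bw R B ++ e) →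
    (∀ X', XX X' → RR β (Ex R c X') (Bw R (tb B X') ++ e)) ∧
    RR β (Ex R c [0, 3]) (Bw R (ty1 B) ++ e) ∧ RR β (Ex R c [3, 0]) (Bw R (ty2 B) ++ e) ∧
    RR β (Ex R c [0, 3]) (Bw R (tx1 B) ++ e) ∧ RR β (Ex R c [3, 0]) (Bw R (tx2 B) ++ e)

/-- SWO. Adjacent letters outside block `1` commute (not `x` with `y`).
PROOF. One of `a`, `b` is a local letter of `c`: in block `r ≠ 1` the letters `0`, `3` occur only if
`r = 0`, the light letter `3 d + 1` only if `r = d + 2` (and once), and `e` has neither.  Both letters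
occur in block `1` (`fu`, `x1`, `y1`).  `R = R1 ++ r :: (R2 ++ 1 :: R3)` or
`R = R1 ++ 1 :: (R2 ++ r :: R3)`: LOC with `g = B 1`: for `c' <:+: B 1` without `a`, `b`: `Sm c' c` by
SMA (1) (with the local letter as `b`; exchange the roles if necessary), so `FC β c'`, `ZC β c'` by
`IH`.  For `e`: the second part of LOC. -/
def SwoStmt : Prop := ∀ (β : FIC) (m : ℕ) (R c : List ℕ) (B : ℕ → List ℕ) (e : List ℕ), Can m c →
  IH β c → R.Perm (List.range (m + 2)) → Bf m R c B e →
    (∀ (r : ℕ) (A C : List ℕ) (a b : ℕ), r ∈ R → r ≠ 1 → B r = A ++ a :: b :: C → a ≠ b →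
      ¬ ((a = 0 ∨ a = 3) ∧ (b = 0 ∨ b = 3)) →
        RR β (Bw R B ++ e) (Bw R (up B r (A ++ b :: a :: C)) ++ e)) ∧
    (∀ (A C : List ℕ) (a b : ℕ), e = A ++ a :: b :: C → a ≠ b →
      RR β (Bw R B ++ e) (Bw R B ++ (A ++ b :: a :: C)))

/-- PMV. All rearrangements outside block `1` which keep the order of `x`, `y` in block `0`.
PROOF. Change one block after the other (induction on the list of the elements of `R` which are
already changed), then `e`; for one block PLM with `P a = (a = 0 ∨ a = 3)` and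
`E D := RR β (Bw R B ++ e) (Bw R (up B r D) ++ e)`, the exchanges by SWO applied to the blocks
`up B r (A ++ a :: b :: C)` (`Bf` depends only on the letters of the blocks).  (For `r ≠ 0` the
filter is empty.) -/
def PmvStmt : Prop := ∀ (β : FIC) (m : ℕ) (R c : List ℕ) (B : ℕ → List ℕ) (e : List ℕ), Can m c →
  IH β c → R.Perm (List.range (m + 2)) → Bf m R c B e → ∀ (B' : ℕ → List ℕ) (e' : List ℕ),
    (∀ r ∈ R, (B' r).Perm (B r)) → B' 1 = B 1 → fxy (B' 0) = fxy (B 0) → e'.Perm e →
      RR β (Bw R B ++ e) (Bw R B' ++ e')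

/-- XCH. Exchange of `x`, `y` in block `0` if block `1` is not of the form `x g y` with all letters
of `c` in `g`.
PROOF. `R = R1 ++ 0 :: (R2 ++ 1 :: R3)`.  If a letter of `c` is not in `g`: the letters of `g` are in
`c` (`ct`, `x1`, `y1`), `Sm g c` by SMA (2), `FC β g` with `p = Bw R1 B ++ D1`, `x = 0`, `y = 3`;
`Mult g` by `mu`.  Otherwise let `A ≠ []`, `A = A1 ++ v :: A2`; `v ∈ c` (`v ≠ 0, 3` since these
letters occur once in block `1`), so `v ∈ g`, so `v` is not light (count `1` in block `1`), so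
`2 ≤ c.count v`.  Let `g = g1 ++ v :: g2`, `v ∉ g2`.  By `I2` (`v c v d v ≈ vv c d v` with the first
`v` in `A`, the last `v` the one before `g2`) the letters `v` of `g1` are moved one after the other
to the `v` in `A`: the word is equivalent to the word with `A' = A1 ++ v :: (replicate k v ++ A2)`
and `g' = g1.filter (· ≠ v) ++ v :: g2`, in both arrangements of `x`, `y` in block `0` (the
multiplicities are not changed).  `g'.count v = 1`: `Sm g' c` by SMA (3), `FC β g'`.  If `C ≠ []`,
`v ∈ C`, the same with the first `v` of `g` (`g = g1 ++ v :: g2`, `v ∉ g1`) and the mirror image of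
`I2`: `v c v d v ≈ vv c d v ≈ v c d v v` (the second step is `I2` with `c ++ d` and `[]`,
backwards). -/
def XchStmt : Prop := ∀ (β : FIC) (m : ℕ) (R c : List ℕ) (B : ℕ → List ℕ) (e : List ℕ), I2 β →
  Can m c → IH β c → R.Perm (List.range (m + 2)) → Bfr R 0 1 → Bs m R c B e →
    ∀ D1 D2 A g C : List ℕ, B 0 = D1 ++ 0 :: 3 :: D2 → B 1 = A ++ 0 :: (g ++ 3 :: C) →
      ((∃ a ∈ c, a ∉ g) ∨ A ≠ [] ∨ C ≠ []) →
        RR β (Bw R B ++ e) (Bw R (up B 0 (D1 ++ 3 :: 0 :: D2)) ++ e)

/-- CPR. If the exchange fails, block `1` of every word of the class is `x h y` with all letters of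
`c` in `h`.
PROOF. `Bs m R c B e` by BAS.
(a) `fu`: suppose `a ∈ c`, `a ∉ B 1`.  TRA: `Ex R c X' ~ Bw R (tb B X') ++ e` for both `X'`; XCH for
`tb B [0, 3]` with `D1 = dxy (B 0)`, `D2 = []`, `A = C = []`, `g = dxy (B 1)` (`a ∉ g`) gives `EE`:
contradiction.  (`Bs` of a transferred word: BAS (2) again.)
(b) block `1` contains `0` and `3` once.  Case `B 1 = A ++ 0 :: (g ++ 3 :: C)`.  If `A ≠ []` or a
letter of `c` is not in `g ++ C`: `dy (B 1) ++ [3] = A ++ 0 :: ((g ++ C) ++ [3])`,
`dy (B 0) = D1 ++ 0 :: D2`; all letters of `c` are in `B 1`, so `Bf` for the words `ty1 B`, `ty2 B`.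
`Ex R c [0,3] ~ ty1 B` (block `0`: `D1 0 D2 3`) `~` (PMV) `D1 D2 0 3 ~` (XCH) `D1 D2 3 0 ~` (PMV)
`3 D1 0 D2 = ty2 B ~ Ex R c [3,0]`: `EE`, contradiction.  So `A = []` and all letters of `c` are in
`g ++ C`.  If `C ≠ []`: with `tx1 B`, `tx2 B`: block `1` is `0 :: (g ++ 3 :: C)`, block `0`:
`Ex R c [0,3] ~ 0 D1' 3 D2' ~` (PMV) `D1' D2' 0 3 ~` (XCH, `C ≠ []`) `D1' D2' 3 0 ~` (PMV)
`D1' 3 D2' 0 = tx2 B ~ Ex R c [3,0]`: contradiction.  So `C = []`.
Case `B 1 = A ++ 3 :: (g ++ 0 :: C)`: `dy (B 1) ++ [3] = (A ++ g) ++ 0 :: (C ++ [3])`: if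
`A ++ g ≠ []` or a letter of `c` is not in `C`: `EE` as before.  Otherwise `B 1 = 3 :: 0 :: C`:
`tx1 B`: block `1` is `0 :: ([] ++ 3 :: C)`, the chain between `0` and `3` is empty and `c ≠ []`:
`EE` as before.
(c) `b0`: let `X0 = fxy (B 0)`, `X0 = [0, 3]` or `[3, 0]`.  PMV: `Bw R B ++ e ~` the word with block
`0` equal to `dxy (B 0) ++ X0`, that is `tb B X0` (`B 1 = 0 :: (dxy (B 1) ++ [3])` by (b)); TRA:
`Ex R c X0 ~ tb B X0`.  So `Ex R c X ~ Ex R c X0`, and `X0 = X` since `EE` fails. -/
def CprStmt : Prop := ∀ (β : FIC) (m : ℕ) (R c X : List ℕ) (B : ℕ → List ℕ) (e : List ℕ),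
  Sit β m R c → XX X → (∀ r, SFr (B r)) → SFr e → RR β (Ex R c X) (Bw R B ++ e) →
    Gd m R c X B e

/-- SWI. Adjacent letters in block `1` which have another common block commute.
PROOF. As in SWO one of `a`, `b` is a local letter `V` (look at the other common block), the other is
`u`.  Suppose the other block is `r` and `r` is before `1` in `R`.  Let `(B r).erase V = E1 ++ u :: E2`
and `D' = E1 ++ a :: b :: E2` (so `V` is next to `u`): `D'.Perm (B r)`, and if `r = 0`
`fxy D' = fxy (B 0)` since `V` is not `0`, `3`.  PMV: block `r` is replaced by `D'`; now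
`.. a b .. | .. A a b C ..`: `ZC β []` (`Sm [] c` since `c ≠ []`: `nd [] = 0 < nd c`) exchanges
`a`, `b` in block `1`; PMV back (`Bf` of the blocks `up B 1 (A ++ b :: a :: C)`).  If `r` is after
`1`, or `e`: `FC β []`. -/
def SwiStmt : Prop := ∀ (β : FIC) (m : ℕ) (R c : List ℕ) (B : ℕ → List ℕ) (e : List ℕ), Can m c →
  IH β c → c ≠ [] → R.Perm (List.range (m + 2)) → Bf m R c B e →
    ∀ (A C : List ℕ) (a b : ℕ), B 1 = A ++ a :: b :: C → a ≠ b →
      ¬ ((a = 0 ∨ a = 3) ∧ (b = 0 ∨ b = 3)) →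
      ((∃ r ∈ R, r ≠ 1 ∧ a ∈ B r ∧ b ∈ B r) ∨ (a ∈ e ∧ b ∈ e)) →
        RR β (Bw R B ++ e) (Bw R (up B 1 (A ++ b :: a :: C)) ++ e)

/-- SWT. Adjacent letters in block `1` which both occur again further right in block `1` commute.
PROOF. `a`, `b` occur twice in block `1`, so they are local letters of `c`.  LOC (first part) with
`g = C`, `q = []`; `Sm c' c` by SMA (1) for `c' <:+: C` without `a`, `b` (the letters `0`, `3` and
the light letters occur at most once in `C`). -/
def SwtStmt : Prop := ∀ (β : FIC) (m : ℕ) (R c : List ℕ) (B : ℕ → List ℕ) (e : List ℕ), Can m c →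
  IH β c → R.Perm (List.range (m + 2)) → Bs m R c B e →
    ∀ (A C : List ℕ) (a b : ℕ), B 1 = A ++ a :: b :: C → a ≠ b → a ∈ C → b ∈ C →
      RR β (Bw R B ++ e) (Bw R (up B 1 (A ++ b :: a :: C)) ++ e)

/-- NFH. The neighbours of `x` and `y` in block `1` are not in block `0`.
PROOF. `Gd` by CPR.  If `h = a :: h'` and `a ∈ B 0`: SWI (`0` and `a` are in block `0`; `a ≠ 0, 3`):
the word with block `1` equal to `a :: 0 :: (h' ++ [3])` is in the class; by CPR its block `1` begins
with `0`: contradiction.  In the same way the last letter of `h` and `3`. -/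
def NfhStmt : Prop := ∀ (β : FIC) (m : ℕ) (R c X : List ℕ) (B : ℕ → List ℕ) (e h : List ℕ),
  Sit β m R c → XX X → (∀ r, SFr (B r)) → SFr e → RR β (Ex R c X) (Bw R B ++ e) →
    B 1 = 0 :: (h ++ [3]) →
      (∀ (a : ℕ) (h' : List ℕ), h = a :: h' → a ∉ B 0) ∧
      (∀ (a : ℕ) (h' : List ℕ), h = h' ++ [a] → a ∉ B 0)

/-- CLM. A step in the class.
PROOF. `Y = []`: trivial.  BAS, FCE: `w = P1 ++ (Y ++ P2) = Bw R B ++ e`, `Y` lies in a block `rY`,
`B rY = a ++ (Y ++ c')`, or in `e`; `Gd` by CPR; `B 1 = 0 :: (h ++ [3])`.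
(1) `Y` in `e`, or `rY ≠ 1` and (`rY ≠ 0` or `fxy Y' = fxy Y`): PMV: the new word is equivalent to
`w`: `X' = X`.
(2) `rY = 0` and `fxy Y' ≠ fxy Y`: the new block `0` is `D2 = a ++ (Y' ++ c')`, it contains `0` and
`3` once, `X' := fxy D2` is `[0, 3]` or `[3, 0]`.  TRA: `Ex R c X' ~ tb B X'` (block `0`:
`dxy (B 0) ++ X'`, block `1`: `B 1`); PMV: `~` the new word (`D2` is a rearrangement with the same
`fxy`).
(3) `rY = 1`: `Y` is a factor of `0 :: (h ++ [3])`, `w` is equivalent to the new word: PLM with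
`P = false` and `E D := RR β w (the word with the factor D instead of Y)`; the exchanges: `Λ` is
right of `Y`; FCE: `Λ` lies in a block or in `e` (if `Y ≠ []` then `Λ ≠ []`).  If `Λ` is in block
`1`: SWT (both letters are in `Λ`, right of `Y`).  Otherwise both letters are in the block `rΛ ≠ 1`
(or `e`): SWI; its hypothesis (not `0` and `3`): if `0` and `3` were both in `Y` then
`Y = 0 :: (h ++ [3])` up to order... (the ends of block `1`; `Y` itself is a factor of `B 1`
containing both ends, so `Y = B 1`), so the first letter of `h` (`h ≠ []`) is in block `rΛ`, and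
`rΛ = 0` because `0 ∈ Λ`: contradiction to NFH. -/
def ClmStmt : Prop := ∀ (β : FIC) (m : ℕ) (R c X P1 Y Y' P2 : List ℕ), Sit β m R c → XX X →
  RR β (Ex R c X) (P1 ++ (Y ++ P2)) → Y.Perm Y' → SFr Y →
    (∃ Q1 Λ Q2 : List ℕ, P2 = Q1 ++ (Λ ++ Q2) ∧ SFr Λ ∧ ∀ a ∈ Y, a ∈ Λ) →
      ∃ X', XX X' ∧ RR β (Ex R c X') (P1 ++ (Y' ++ P2))

/-! ## Block 3: the family -/

/-- FPR. Projections of the big words.
PROOF. (1) `flatMap` of `Bw` is `Bw` of the `flatMap`s of the blocks (`pr i j k (3 r + 2)` is the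
letter itself); block `0`: `Xs i j s` (the elements of `s` are `< 4`); block `1`: the letter `3 i`
goes to `0`, `3 j` to `3`, the other two `x` letters are erased; `cp k' c` goes to `c` if `k' = k`,
otherwise it is erased (`cl`, `pr` on the letters of `c`, `Can`); place blocks `Z3 r`, `2 ≤ r`, go to
`[3 (r - 2) + 1]`.  (2) the letters `3 i` are in the blocks `0` and `1`, the light letters in block
`1` and in a place block, the local letters twice in block `1`. -/
def FprStmt : Prop := ∀ (m : ℕ) (R c s : List ℕ), Can m c → R.Perm (List.range (m + 2)) →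
  s.Perm [0, 1, 2, 3] →
    (∀ i k j : ℕ, i ≤ k → k < j → j ≤ 3 → (Fq R s c).flatMap (pr i j k) = Ex R c (Xs i j s)) ∧
    (∀ a ∈ Fq R s c, a % 3 ≠ 2 → 2 ≤ (Fq R s c).count a)

/-- FAB. The family contains the big words, is a union of classes, and `s` is determined by `w`.
PROOF. FPR; `RR.sub`; if `Fam s w` and `Fam s' w` then for all `i ≤ k < j` the words
`Ex R c (Xs i j s)`, `Ex R c (Xs i j s')` are equivalent; `Xs i j s` is `[0,3]` or `[3,0]`, so they
are equal (`EE` fails); permutations of `[0,1,2,3]` with the same `Xs i j` for all `i < j` are equal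
(`decide`). -/
def FabStmt : Prop := ∀ (β : FIC) (m : ℕ) (R c : List ℕ), Can m c →
  R.Perm (List.range (m + 2)) → ¬ EE β R c →
    (∀ s, s.Perm [0, 1, 2, 3] → Fam β R c s (Fq R s c)) ∧
    (∀ s w w', Fam β R c s w → RR β w w' → Fam β R c s w') ∧
    (∀ s s' w, Fam β R c s w → Fam β R c s' w → s = s')

/-- FST. The structure of the words of the family.
PROOF. (1) The projection `pr 0 1 0` keeps the separators, and the projected word is cut by the
separators `3 r + 2`, `r ∈ R` (BAS): DCM.  (2) For `i ≤ k < j ≤ 3` the projected word has the blocks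
`(B r).flatMap (pr i j k)` and the tail `e.flatMap (pr i j k)`: apply CPR and NFH to them (`X = Xs i
j t`).  `xl (B 0) = t`: every `x_i` is once in `B 0`, and for `i < j` the order of `x_i`, `x_j` is the
one of `t` (`b0`).  In block `1`: every `x_i` once, `x_i` before `x_j` for `i < j`, and every letter
of copy `k` is after `x_i` and before `x_j` for `i ≤ k < j`, so it is between `x_k` and `x_(k+1)`.
All letters of the word which are not separators are `x_i` or belong to a copy (a multiple of `3`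
which is `≥ 12` and a letter `≡ 1` belong to a copy by definition of `pr`).  `ne`: between `x_a` and
`x_(a+1)` is the nonempty copy (`c ≠ []`, `b1` for `pr a (a+1) a`).  `nb`, `nc`: `b` (resp. `a`)
belongs to copy `i` if `a = x_i` (`i ≤ 2`; after `x_3` there is nothing), resp. to copy `j - 1` if
`b = x_j`; NFH for `pr i (i+1) i`.  `li`: `li` for the copy `b % 3`.  `fu`: `b1` for
`pr a (a+1) a`. -/
def FstStmt : Prop := ∀ (β : FIC) (m : ℕ) (R c t w : List ℕ), Sit β m R c → Fam β R c t w →
  (∃ (B : ℕ → List ℕ) (e : List ℕ), w = Bw R B ++ e ∧ (∀ r, SFr (B r)) ∧ SFr e) ∧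
  ∀ (B : ℕ → List ℕ) (e : List ℕ), (∀ r, SFr (B r)) → SFr e → w = Bw R B ++ e → Fs m R t B e

/-- SPL. The shape of the big words: a part left of block `0`, block `0`, a part which contains
block `1`.
PROOF. `R = R1 ++ 0 :: (R2 ++ 1 :: R3)` (`Bfr`, `Nodup`), `U = Bw R1 _`,
`V1 = 2 :: Bw R2 _`, `V2 = 5 :: Bw R3 _` with the place blocks. -/
def SplStmt : Prop := ∀ (m : ℕ) (R c : List ℕ), R.Perm (List.range (m + 2)) → Bfr R 0 1 →
  ∃ U V1 V2 : List ℕ, ∀ s : List ℕ,
    Fq R s c = U ++ (s.map (fun i => 3 * i) ++ (V1 ++ (L4 c ++ V2)))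

/-- SEP. Images of letters which are multiple have no separators.
PROOF. If a separator `T` is in `φ a` and `a` occurs twice in the pattern then `T` occurs twice in the
word; but every projected word of the family is equivalent to `Ex R c X`, in which every separator
occurs at most once (BAS: `Bw R B ++ e` has each separator `3 r + 2`, `r ∈ R` once and no others),
and projections keep the separators. -/
def SepStmt : Prop := ∀ (β : FIC) (m : ℕ) (R c s t M Q : List ℕ) (φ : ℕ → List ℕ), Sit β m R c →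
  s.Perm [0, 1, 2, 3] → Fam β R c t (M ++ ((Fq R s c).flatMap φ ++ Q)) →
    ∀ a ∈ Fq R s c, a % 3 ≠ 2 → SFr (φ a)

/-- STA. The step stays in the family.
PROOF. SPL: `w1 = P1 ++ (Y ++ P2)`, `w2 = P1 ++ (Y' ++ P2)`, `P1 = M ++ U.flatMap φ`,
`Y = (s.map (3 ·)).flatMap φ`, `P2 = V1.flatMap φ ++ (Λ ++ (V2.flatMap φ ++ Q))`,
`Λ = (L4 c).flatMap φ`, `Y.Perm Y'` (`s.Perm s'`).  `Y`, `Λ` have no separators (SEP), every letter
of `Y` is in `Λ` (`3 i ∈ L4 c`).  For `i ≤ k < j ≤ 3` apply CLM to the projected words (`pr i j k` of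
`P1`, `Y`, `Y'`, `P2`; the projection of a word without separators has none): there is `X'` with
`Ex R c X' ~ w2.flatMap (pr i j k)`.  Let `w2 = Bw R B ++ e` (the separators of `w2` are those of
`w1`; DCM, or FCE and FST for `w1`) and `t' = xl (B 0)`.  By CPR (`b0`) for the projected blocks
`fxy ((B 0).flatMap (pr i j k)) = X'`, and this is `Xs i j t'`.  `t'.Perm [0,1,2,3]`: all elements
are `< 4` and every `i < 4` occurs once (`x0` or `y0` of `Bs` for a projection with `i`). -/
def StaStmt : Prop := ∀ (β : FIC) (m : ℕ) (R c s s' t M Q : List ℕ) (φ : ℕ → List ℕ),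
  Sit β m R c → s.Perm [0, 1, 2, 3] → s'.Perm [0, 1, 2, 3] →
    Fam β R c t (M ++ ((Fq R s c).flatMap φ ++ Q)) →
      ∃ t', Fam β R c t' (M ++ ((Fq R s' c).flatMap φ ++ Q))

/-- NXL. If block `1` of the pattern goes to block `1`, its image contains two neighbours `x_a`,
`x_(a+1)`, and the images of the letters `x_i` are in block `0`, then the images of the letters of
the chain contain no letters `x`.
PROOF. Local letters `u` of the copies occur twice in `L4 c`, so `φ u` occurs twice in block `1`,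
where every `x` occurs once.  Light letters: the image of `L4 c` contains `h`, so it contains all
light letters `D_d = 3 (3 d + a) + 1`, `d < m` (`Fs.fu`).  `D_d` is in the image of a letter `u` of
`L4 c`; `u` is not an `x_i` (`D_d` is not in block `0`, `li`), not local (then `D_d` would be twice in
block `1`), so `u = 3 (3 l + k) + 1`, `l < m`, `k < 3`, and `u` is also in the place block `l + 2` of
the pattern; its image `F_l = (Z3 (l + 2)).flatMap φ` has no separators, contains `D_d`, and is a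
factor of the word disjoint from the image of `L4 c`; by FCE it lies in one block; `D_d` occurs only
in the blocks `1` and `d + 2`, once in each, and the occurrence in block `1` is in the image of
`L4 c`: so `F_l` lies in block `d + 2`.  So `d ↦ l` is injective on `{0, …, m - 1}`, hence
surjective: all `F_l`, `l < m`, lie in blocks `≥ 2`, which contain no `x` (`xo`).  So no `φ u`, `u`
light, contains an `x`. -/
def NxlStmt : Prop := ∀ (m : ℕ) (R c s t M Q : List ℕ) (φ : ℕ → List ℕ) (B : ℕ → List ℕ)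
  (e : List ℕ), Can m c → R.Perm (List.range (m + 2)) → s.Perm [0, 1, 2, 3] →
    t.Perm [0, 1, 2, 3] →
    M ++ ((Fq R s c).flatMap φ ++ Q) = Bw R B ++ e → Fs m R t B e →
    (∀ a ∈ Fq R s c, a % 3 ≠ 2 → SFr (φ a)) →
    (∃ (R1 R2 A' C' : List ℕ), R = R1 ++ 1 :: R2 ∧ B 1 = A' ++ ((L4 c).flatMap φ ++ C') ∧
      ∃ (U V : List ℕ), Fq R s c = U ++ (L4 c ++ V) ∧ M ++ U.flatMap φ = Bw R1 B ++ A') →
    (∀ i < 4, ∀ u ∈ φ (3 * i), u ∈ B 0) →
    (∃ (a : ℕ) (A h C : List ℕ), a < 3 ∧
      (L4 c).flatMap φ = A ++ 3 * a :: (h ++ 3 * (a + 1) :: C)) →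
      ∀ k < 3, ∀ u ∈ cp k c, ∀ v ∈ φ u, ¬ isx v

/-- STB. The classes in the step.
PROOF. Notation of STA.  `w1 = Bw R B ++ e`, `Fs m R t B e` (FST).  `Y = []`: `w1 = w2`, `t = t'`
(FAB).  FCE: `Y` lies in block `rY`, `B rY = a ++ (Y ++ c')`, or in `e`; `w2` has the blocks
`up B rY (a ++ (Y' ++ c'))`, so by FST `t'` is `xl` of its block `0`.  If `rY ≠ 0`: `t' = t`.
Let `rY = 0`, `y i = xl (φ (3 i))`: `t = xl a ++ (s.flatMap y ++ xl c')`,
`t' = xl a ++ (s'.flatMap y ++ xl c')`.  If at most one `y i`, `i < 4`, is nonempty: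
`s.flatMap y = s'.flatMap y`, `t = t'`.  Otherwise `Λ` contains two letters `x`; it lies in one block
`rΛ` (FCE), and `rΛ = 1`: the other blocks `≠ 0` contain no `x`, and in block `0` a letter of `Y` would
occur twice.  If `v ∈ φ (3 i)` is an `x` then `φ (3 i) = [v]`: `φ (3 i)` is a factor of block `1` all
of whose letters are in block `0` (it is a factor of `Y`), so by `nb`, `nc`, `ne` it has no letter
next to `v`.  So `(y i).length ≤ 1`.  `Λ` contains two letters `x` which are neighbours (`xl Λ` is an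
infix of `xl (B 1) = [0,1,2,3]` of length `≥ 2`): NXL: the images of the letters of `cp k c` contain
no `x`, so `xl Λ = y 0 ++ y 1 ++ y 2 ++ y 3`, an infix of `[0,1,2,3]`.  Now `fin_step`
(Helper2_MV.Perm4). -/
def StbStmt : Prop := ∀ (β : FIC) (m : ℕ) (R c s s' t t' M Q : List ℕ) (φ : ℕ → List ℕ),
  Sit β m R c → s.Perm [0, 1, 2, 3] → s'.Perm [0, 1, 2, 3] → chk s s' = true →
    Fam β R c t (M ++ ((Fq R s c).flatMap φ ++ Q)) →
    Fam β R c t' (M ++ ((Fq R s' c).flatMap φ ++ Q)) → cls t' = cls t ∨ (t = s ∧ t' = s')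

/-- PNA. The pentagon (Helper2_MV.Pin, Helper31_MVD.PEF, Helper11_MWD.PEF3) for an arbitrary family.
PROOF. As PEF3 with `PQ c w := ∃ s, Fm s w.toList ∧ c (cls s)`; invariance, uniqueness and the step
are hypotheses; the words are `W s`, `s` one of `[0,1,2,3]`, `[1,3,0,2]`, `[2,0,3,1]`,
`[3,2,1,0]`. -/
def PnaStmt : Prop := ∀ (β : FIC) (Fm : List ℕ → List ℕ → Prop) (W : List ℕ → List ℕ), ModF β →
  (∀ s w, Fm s w → s.Perm [0, 1, 2, 3]) → (∀ s, s.Perm [0, 1, 2, 3] → Fm s (W s)) →
  (∀ s w w', Fm s w → RR β w w' → Fm s w') → (∀ s s' w, Fm s w → Fm s' w → s = s') →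
  (∀ s s' : List ℕ, s.Perm [0, 1, 2, 3] → s'.Perm [0, 1, 2, 3] → chk s s' = true →
    ∀ (φ : ℕ → List ℕ) (M Q t : List ℕ), Fm t (M ++ ((W s).flatMap φ ++ Q)) →
      ∃ t', Fm t' (M ++ ((W s').flatMap φ ++ Q)) ∧ (cls t' = cls t ∨ (t = s ∧ t' = s'))) → False

/-! ## Block 4: reduction, mirror image, induction -/

/-- RED. Reduction to canonical chains.
PROOF. `p xy q x c y r`.  `x = y`: `RR.refl`.  If `x ∈ c`: `c = c1 ++ x :: c2`, `x ∉ c2`:
`nd c2 < nd c`: `FC β c2` with `q ++ x :: c1` instead of `q`.  If `y ∈ c`: `c = c1 ++ y :: c2`,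
`y ∉ c1`: `FC β c1`.  Otherwise let `D` be the list of the letters which occur once in `c`, `U` the
list of the repeated letters (without repetitions), `m = D.length`; a letter of `D` is multiple in
the whole word, so it occurs in `p`, `q` or `r`.  INS (`Pool.Agent.MWD.H11.insF`) gives `R`, `g`, `M`
with `p ++ (X^g ++ (q ++ (L^g ++ r))) = M ++ (Eg R X L)^g` for all `X`, `L` (`^g` = `flatMap g`).
Let `ρ a = 3 (index of a in D) + 1` for `a ∈ D`, `ρ a = 3 (index of a in U + 2)` for `a ∈ U`,
`c' = c.map ρ`: `Can m c'`, `nd c' = nd c`, `nr c' = nr c`.  Let `g'` be `g` changed at the letters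
`3 (j + 2)`: `g' (3 (j + 2)) = [U[j]]` for `j < U.length`.  `R = R1 ++ 0 :: (R2 ++ 1 :: R3)`, so
`(Eg R X L)^g = E1 ++ (X^g ++ (E2 ++ (L^g ++ E3)))` with `E1, E2, E3` not depending on `X`, `L`;
comparing the identity for `X = [0]` and `X = [3]` (`g 0 = [x] ≠ [y] = g 3`) one gets
`p = M ++ E1`, then for `L = [0]`, `[3]` also `q = E2`, `r = E3` (or take this form of the statement
from the proof of INS); the same for `g'` (`E1`, `E2`, `E3` contain no letters `3 (j + 2)`).  So
`EE β R c'`, substituted by `g'` and multiplied by `M`, is the claim. -/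
def RedStmt : Prop := ∀ (β : FIC) (c : List ℕ), IH β c → c ≠ [] →
  (∀ (m : ℕ) (R c' : List ℕ), Can m c' → R.Perm (List.range (m + 2)) → Bfr R 0 1 → c' ≠ [] →
    nd c' = nd c → nr c' = nr c → EE β R c') → FC β c

/-- MIE. The mirror image.
PROOF. MIR (`Pool.Agent.MVD.H81.mir`), `mir (mir β)` and `β` have the same `RR`; `x c d x x ≈ xx c d x`
is `I2` with the words `c ++ d` and `[]`, so `I2` implies its mirror image; `Lx (mir β) ↔ Rx β` by
reversal (and renaming `x`, `y`). -/
def MieStmt : Prop := ∀ β : FIC, (Hy β → Hy (mir β)) ∧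
  (∀ c : List ℕ, (FC (mir β) c ↔ ZC β c.reverse) ∧ (ZC (mir β) c ↔ FC β c.reverse)) ∧
  (∀ c : List ℕ, nd c.reverse = nd c ∧ nr c.reverse = nr c)

/-- EEA. Canonical chains.
PROOF. PNA with `Fm = Fam β R c`, `W s = Fq R s c`: FAB, STA, STB. -/
def EeaStmt : Prop := ∀ (β : FIC) (m : ℕ) (R c : List ℕ), ModF β → ¬ Sit β m R c

/-- FAL. THE THEOREM.
PROOF. Induction on `(nd c, nr c)` (lexicographic, strong): for all `β` with `Hy β`: `FC β c` and
`ZC β c`.  `c = []`: `Lx`, `Rx` in a context (substitute `t` by `q`).  `c ≠ []`: `IH β c` by the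
induction hypothesis (`Sm c' c` implies that the pair of `c'` is lexicographically smaller).
`FC β c`: RED; for `c'` with the same numbers `IH β c'` holds as well (`Sm` depends only on the
numbers), and EEA gives `EE β R c'`.  `ZC β c`: `FC (mir β) c.reverse` (MIE).  Finally
`FF β ↔ ∀ c, FC β c`, `ZZ β ↔ ∀ c, ZC β c`. -/
def FalStmt : Prop := ∀ β : FIC, Hy β → FF β ∧ ZZ β

/-- LXR. `Lx` and `Rx`.
PROOF. If `S2`, not `S1`, not `S3`: `ffcF`, `zzcF` with `c = []`.  If not `S2`: `prpF` with `m = 1`,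
`R = [0, 1, 2]`, `c = [0]`: the pin is right of block `1`, so it is rigid against `x`, `y` (`rg` with
the kinds false, true is `¬ S2`): `0 3 2 0 1 3 5 1 8 ≈ 3 0 2 0 1 3 5 1 8`; erase `1, 5, 8`: `Lx`.
`Rx`: the same for the mirror image (MIR). -/
def LxrStmt : Prop := ∀ β : FIC, ModF β → Iso3 β → (¬ S2 β ∨ (S2 β ∧ ¬ S1 β ∧ ¬ S3 β)) →
  Lx β ∧ Rx β

end Pool.Agent.MWE
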