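import Pool.Agent.Helper11_MWD.FIN3

/-!
# The identities F and F' for all words (MP_23468a_al, squad MWE): definitions

`β` is a fully invariant congruence.  THEOREM: if `xyx` is an isoterm, the lattice above `β` is
modular, `x c x d x ≈ xx c d x` (all words), `xytxy ≈ yxtxy`, `xytxy ≈ xytyx`, then
`p xy q x c y r ≈ p yx q x c y r` and its mirror image hold for all words `c` whose letters are
multiple.

Letters: `x = 0`, `y = 3`, light letters `3 e + 1`, local letters `3 j`, `2 ≤ j`, separators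
`3 r + 2`.  `Ex R c X`: block `0` is `X`, block `1` is `x c y`, block `e + 2` is the place `3 e + 1`.
-/

set_option autoImplicit false

namespace Pool.Agent.MWE

open Pool.Agent.Helper14_MV Pool.Agent.Helper2_MV Pool.Agent.MVD

/-- number of different letters -/
def nd (c : List ℕ) : ℕ := c.toFinset.card

/-- number of repeated letters -/
def nr (c : List ℕ) : ℕ := (c.toFinset.filter (fun a => 2 ≤ c.count a)).card

/-- `c'` is smaller than `c` -/
def Sm (c' c : List ℕ) : Prop := nd c' < nd c ∨ (nd c' ≤ nd c ∧ nr c' < nr c)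

/-- `FF` for the word `c` -/
def FC (β : FIC) (c : List ℕ) : Prop := ∀ (p q r : List ℕ) (x y : ℕ),
  Mult c (p ++ x :: y :: (q ++ x :: (c ++ y :: r))) →
    RR β (p ++ x :: y :: (q ++ x :: (c ++ y :: r))) (p ++ y :: x :: (q ++ x :: (c ++ y :: r)))

/-- `ZZ` for the word `c` -/
def ZC (β : FIC) (c : List ℕ) : Prop := ∀ (p q r : List ℕ) (x y : ℕ),
  Mult c (p ++ x :: (c ++ y :: (q ++ x :: y :: r))) →
    RR β (p ++ x :: (c ++ y :: (q ++ x :: y :: r))) (p ++ x :: (c ++ y :: (q ++ y :: x :: r)))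

/-- `x c x d x ≈ xx c d x`, no simple letters in `c`, `d` -/
def I2 (β : FIC) : Prop := ∀ (p c d q : List ℕ) (x : ℕ),
  Mult (c ++ d) (p ++ x :: (c ++ x :: (d ++ x :: q))) →
    RR β (p ++ x :: (c ++ x :: (d ++ x :: q))) (p ++ x :: x :: (c ++ (d ++ x :: q)))

/-- the induction hypothesis -/
def IH (β : FIC) (c : List ℕ) : Prop := ∀ c', Sm c' c → FC β c' ∧ ZC β c'

/-- the general hypotheses -/
structure Hy (β : FIC) : Prop where
  md : ModF β
  i3 : Iso3 β
  i2 : I2 β
  lx : Lx β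
  rx : Rx β

/-- canonical chains: the light letters `3 e + 1`, `e < m`, occur exactly once, all other letters
are local letters `3 j`, `2 ≤ j`, with at least two occurrences -/
structure Can (m : ℕ) (c : List ℕ) : Prop where
  li : ∀ d < m, c.count (3 * d + 1) = 1
  lo : ∀ a ∈ c, (∃ d < m, a = 3 * d + 1) ∨ (a % 3 = 0 ∧ 6 ≤ a ∧ 2 ≤ c.count a)

/-- block `0` is `X`, block `1` is `x c y`, block `e + 2` is the place of the light letter -/
def Ex (R c X : List ℕ) : List ℕ := Eg R X (0 :: (c ++ [3]))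

/-- the exchange in block `0` -/
def EE (β : FIC) (R c : List ℕ) : Prop := RR β (Ex R c [0, 3]) (Ex R c [3, 0])

/-- the two possibilities for block `0` -/
def XX (X : List ℕ) : Prop := X = [0, 3] ∨ X = [3, 0]

/-- the situation in the induction step (proof by contradiction) -/
structure Sit (β : FIC) (m : ℕ) (R c : List ℕ) : Prop where
  i3 : Iso3 β
  i2 : I2 β
  ih : IH β c
  can : Can m c
  ne : c ≠ []
  pR : R.Perm (List.range (m + 2))
  b01 : Bfr R 0 1
  no : ¬ EE β R c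

/-- the blocks `B r`, `r` in `R`, and the tail `e` of a word which is equivalent to `Ex R c X` -/
structure Bs (m : ℕ) (R c : List ℕ) (B : ℕ → List ℕ) (e : List ℕ) : Prop where
  sf : ∀ r, SFr (B r)
  se : SFr e
  x0 : (B 0).count 0 = 1
  x1 : (B 1).count 0 = 1
  xo : ∀ r ∈ R, r ≠ 0 → r ≠ 1 → 0 ∉ B r
  xe : 0 ∉ e
  y0 : (B 0).count 3 = 1
  y1 : (B 1).count 3 = 1
  yo : ∀ r ∈ R, r ≠ 0 → r ≠ 1 → 3 ∉ B r
  ye : 3 ∉ e
  li : ∀ d < m, ∀ r ∈ R, (B r).count (3 * d + 1) = if r = 1 ∨ r = d + 2 then 1 else 0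
  le : ∀ d < m, 3 * d + 1 ∉ e
  ct : ∀ a ∈ Bw R B ++ e, a % 3 ≠ 2 → a = 0 ∨ a = 3 ∨ a ∈ c
  mu : ∀ a ∈ Bw R B ++ e, a % 3 ≠ 2 → 2 ≤ (Bw R B ++ e).count a

/-- `Bs`, and all letters of `c` are in block `1` -/
structure Bf (m : ℕ) (R c : List ℕ) (B : ℕ → List ℕ) (e : List ℕ) : Prop
    extends Bs m R c B e where
  fu : ∀ a ∈ c, a ∈ B 1

/-- only the letters `x` and `y` -/
def fxy (D : List ℕ) : List ℕ := D.filter (fun a => decide (a = 0 ∨ a = 3))
/-- without `x` and `y` -/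
def dxy (D : List ℕ) : List ℕ := D.filter (fun a => decide (a ≠ 0 ∧ a ≠ 3))
/-- without `x` -/
def dx (D : List ℕ) : List ℕ := D.filter (fun a => decide (a ≠ 0))
/-- without `y` -/
def dy (D : List ℕ) : List ℕ := D.filter (fun a => decide (a ≠ 3))

/-- the blocks of a word of the class if `EE` fails: block `1` is `x h y`, all letters of `c` are in
`h`, the letters `x`, `y` are in block `0` in the order `X` -/
structure Gd (m : ℕ) (R c X : List ℕ) (B : ℕ → List ℕ) (e : List ℕ) : Prop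
    extends Bf m R c B e where
  b1 : ∃ h, B 1 = 0 :: (h ++ [3]) ∧ 0 ∉ h ∧ 3 ∉ h ∧ (∀ a ∈ c, a ∈ h) ∧ ∀ a ∈ h, a ∈ c
  b0 : fxy (B 0) = X

/-- block `r` is replaced by `D` -/
def up (B : ℕ → List ℕ) (r : ℕ) (D : List ℕ) : ℕ → List ℕ := fun q => if q = r then D else B q

/-! ### the big words: four letters `x_i = 3 i`, `i < 4`, three copies of the chain -/

/-- the `k`-th copy of a letter of the chain -/
def cl (k a : ℕ) : ℕ := if a % 3 = 1 then 3 * (3 * (a / 3) + k) + 1 else 3 * (3 * (a / 3) + k - 2)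

/-- the `k`-th copy of the chain -/
def cp (k : ℕ) (c : List ℕ) : List ℕ := c.map (cl k)

/-- `x_0 c^0 x_1 c^1 x_2 c^2 x_3` -/
def L4 (c : List ℕ) : List ℕ := 0 :: (cp 0 c ++ 3 :: (cp 1 c ++ 6 :: (cp 2 c ++ [9])))

/-- block `0` is the arrangement `s` of the letters `x_i`, block `1` is `L4 c`, the place blocks
have three letters -/
def Fq (R s c : List ℕ) : List ℕ :=
  Bw R (fun r => if r = 0 then s.map (fun i => 3 * i) else if r = 1 then L4 c else Z3 r)

/-- the projection to `x_i`, the copy `k` and `x_j` -/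
def pr (i j k a : ℕ) : List ℕ :=
  if a % 3 = 0 then
    (if a < 12 then (if a = 3 * i then [0] else if a = 3 * j then [3] else [])
      else if (a / 3 + 2) % 3 = k then [3 * ((a / 3 + 2) / 3)] else [])
  else if a % 3 = 1 then (if (a / 3) % 3 = k then [3 * (a / 3 / 3) + 1] else [])
  else [a]

/-- the arrangement of `x_i`, `x_j` in `s` as a word in `x`, `y` -/
def Xs (i j : ℕ) (s : List ℕ) : List ℕ :=
  s.flatMap (fun a => if a = i then [0] else if a = j then [3] else [])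

/-- the family: all projections of `w` are in the class -/
def Fam (β : FIC) (R c s w : List ℕ) : Prop :=
  s.Perm [0, 1, 2, 3] ∧ ∀ i k j : ℕ, i ≤ k → k < j → j ≤ 3 →
    RR β (Ex R c (Xs i j s)) (w.flatMap (pr i j k))

/-- the arrangement of the letters `x_i` in `D` -/
def xl (D : List ℕ) : List ℕ := (D.filter (fun a => decide (a % 3 = 0 ∧ a < 12))).map (fun a => a / 3)

/-- `a` is one of the letters `x_0, x_1, x_2, x_3` -/
def isx (a : ℕ) : Prop := a % 3 = 0 ∧ a < 12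

/-- the blocks of a word of the family -/
structure Fs (m : ℕ) (R t : List ℕ) (B : ℕ → List ℕ) (e : List ℕ) : Prop where
  sf : ∀ r, SFr (B r)
  se : SFr e
  x0 : xl (B 0) = t
  x1 : xl (B 1) = [0, 1, 2, 3]
  xo : ∀ r ∈ R, r ≠ 0 → r ≠ 1 → xl (B r) = []
  xe : xl e = []
  ne : ∀ (A C : List ℕ) (a b : ℕ), B 1 = A ++ a :: b :: C → isx a → ¬ isx b
  nb : ∀ (A C : List ℕ) (a b : ℕ), B 1 = A ++ a :: b :: C → isx a → b ∉ B 0
  nc : ∀ (A C : List ℕ) (a b : ℕ), B 1 = A ++ a :: b :: C → isx b → a ∉ B 0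
  li : ∀ b < 3 * m, ∀ r ∈ R, (B r).count (3 * b + 1) = if r = 1 ∨ r = b / 3 + 2 then 1 else 0
  le : ∀ b < 3 * m, 3 * b + 1 ∉ e
  fu : ∀ (A h C : List ℕ) (a : ℕ), B 1 = A ++ 3 * a :: (h ++ 3 * (a + 1) :: C) → a < 3 →
    ∀ d < m, 3 * (3 * d + a) + 1 ∈ h

end Pool.Agent.MWE
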